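import Pool.Agent.NH53.UF.Ab
import Pool.Agent.NH53.UF.TYP

/-!
Weak abundance for log canonical pairs which are dominated by a pair with a maximal number of
independent units on the generic fibre of the Iitaka fibration.
-/

set_option autoImplicit false

open FF Pool.Agent.W602.GT Pool.Agent.Y172 Pool.Agent.NH31

namespace Pool.Agent.Results.MP_2c56d9_ag.IndependentUnits

/-- **Weak abundance for pairs with independent units on the generic fibre.** -/
theorem result {K L : Type} [Field K] [Algebra ℂ K] [Field L] [Algebra ℂ L] [Algebra K L]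
    [IsScalarTower ℂ K L] [FiniteDimensional K L] {n N M : ℕ}
    {y : Fin (N + 1) → K} (hy : NormalModel y) (hn : Algebra.trdeg ℂ K = n)
    {Δ : Place ℂ K → ℚ} (hΔ : Effective y Δ) (hlc : LogCanonical y n Δ)
    {z : Fin (M + 1) → L} (hz : NormalModel z) {B : Place ℂ L → ℚ} (hB : Effective z B)
    {F : IntermediateField ℂ L} (hF : BelowIitaka z n B F)
    {r : ℕ} {u : Fin r → L} (hu : IsTranscendenceBasis F u)
    (hb : ∀ P, IsPrimeDivisor z P → Horizontal F P → (∃ i, P.ord (u i) ≠ 0) → 1 ≤ B P)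
    (hdisc : ∀ P, IsPrimeDivisor y P → ∀ (Q : Place ℂ L) (e : ℕ), LiesOver Q P e →
      (IsPrimeDivisor z Q ∧ e * (1 - Δ P) ≤ 1 - B Q) ∨
        ∃ α : ℚ, e * (1 - Δ P) < α ∧ LogDiscGe z n B Q α) :
    ∃ κ : ℕ, kodairaDim y n Δ = (κ : WithBot ℕ) ∧
      ∀ A, Effective y A → Integral y A → numericalDim y n Δ A = (κ : EReal) := by
  have hm : Algebra.trdeg ℂ L = n := trdeg_up (K := K) hn
  have halg : ∀ f : L, IsAlgebraic (Algebra.adjoin F (Set.range u)) f :=
    fun f => hu.isAlgebraic.isAlgebraic f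
  obtain ⟨a, ha, σ, hσ, hσ0⟩ := Pool.Agent.NH53.UF.exists_sec Pool.Agent.NH53.UF.t_TYP hz hm
    hu.1 halg hB.1 hb hF
  exact reduction hy hn hz hΔ hlc hB ha hσ hσ0 hdisc fun V hV hBV =>
    Pool.Agent.NH53.UF.abund_units Pool.Agent.NH53.UF.t_TYP hz hm hu.1 halg hB.1 hb hF hV hBV
      ha hσ hσ0

end Pool.Agent.Results.MP_2c56d9_ag.IndependentUnits
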